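import Pool.Agent.W2helper57.LD.Stm

/-!
# Piece BD of project LD: the pointwise bound for the second moment
-/

set_option autoImplicit false

open Pool.Agent.N602.PC Pool.Agent.W2helper57.LD

namespace Pool.Agent.W4helper48.LD

theorem iv_zero_or (b : Bool) : iv b = 0 ∨ iv b = 1 := by
  unfold iv; cases b <;> simp

theorem iv_nonneg (b : Bool) : 0 ≤ iv b := by
  unfold iv; cases b <;> simp

theorem iv_le_one (b : Bool) : iv b ≤ 1 := by
  unfold iv; cases b <;> simp

/-- the product over all pairs of the product of the two values -/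
theorem prod_pairs (v : ℕ) (ψ : Fin v → ℝ) :
    ∏ x ∈ prs v, (ψ x.1 * ψ x.2) = ∏ i, ψ i ^ (v - 1) := by
  have h1 : ∏ x ∈ prs v, ψ x.2 =
      ∏ x ∈ Finset.univ.filter (fun x : Fin v × Fin v => x.2 < x.1), ψ x.1 := by
    refine Finset.prod_bij' (fun x _ => x.swap) (fun x _ => x.swap) ?_ ?_ ?_ ?_ ?_
    · intro x hx
      simpa [prs] using hx
    · intro x hx
      simpa [prs] using hx
    · intro x _
      simp
    · intro x _
      simp
    · intro x _
      simp
  rw [Finset.prod_mul_distrib, h1]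
  have h2 : (∏ x ∈ prs v, ψ x.1) *
      ∏ x ∈ Finset.univ.filter (fun x : Fin v × Fin v => x.2 < x.1), ψ x.1 =
      ∏ x ∈ Finset.univ.filter (fun x : Fin v × Fin v => x.1 ≠ x.2), ψ x.1 := by
    unfold prs
    rw [← Finset.prod_union]
    · refine Finset.prod_congr ?_ fun _ _ => rfl
      ext x
      simp only [Finset.mem_union, Finset.mem_filter, Finset.mem_univ, true_and]
      exact lt_or_lt_iff_ne
    · rw [Finset.disjoint_left]
      intro x hx hx'
      simp only [Finset.mem_filter, Finset.mem_univ, true_and] at hx hx'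
      exact absurd hx (not_lt.mpr hx'.le)
  rw [h2, Finset.prod_filter, Fintype.prod_prod_type]
  refine Finset.prod_congr rfl fun i _ => ?_
  simp only
  rw [← Finset.prod_filter, Finset.prod_const]
  congr 1
  have : (Finset.univ.filter fun j : Fin v => i ≠ j) = Finset.univ.erase i := by
    ext j
    simp [eq_comm]
  rw [this, Finset.card_erase_of_mem (Finset.mem_univ i), Finset.card_univ, Fintype.card_fin]

theorem card_prs (v : ℕ) : (prs v).card = v.choose 2 := by
  have h1 : (prs v).card = (Finset.univ.filter fun x : Fin v × Fin v => x.2 < x.1).card := by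
    refine Finset.card_bij' (fun x _ => x.swap) (fun x _ => x.swap) ?_ ?_ ?_ ?_
    · intro x hx
      simpa [prs] using hx
    · intro x hx
      simpa [prs] using hx
    · intro x _
      simp
    · intro x _
      simp
  have h2 : (prs v).card + (Finset.univ.filter fun x : Fin v × Fin v => x.2 < x.1).card =
      (Finset.univ.offDiag : Finset (Fin v × Fin v)).card := by
    unfold prs
    rw [← Finset.card_union_of_disjoint]
    · congr 1
      ext x
      simp only [Finset.mem_union, Finset.mem_filter, Finset.mem_univ, true_and,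
        Finset.mem_offDiag]
      exact lt_or_lt_iff_ne
    · rw [Finset.disjoint_left]
      intro x hx hx'
      simp only [Finset.mem_filter, Finset.mem_univ, true_and] at hx hx'
      exact absurd hx (not_lt.mpr hx'.le)
  rw [Finset.offDiag_card, Finset.card_univ, Fintype.card_fin] at h2
  rw [Nat.choose_two_right]
  have h3 : v * v - v = v * (v - 1) := by
    rw [Nat.mul_sub, Nat.mul_one]
  omega

theorem s_bounds : (1 / 2 : ℝ) ≤ (Real.sqrt 2)⁻¹ ∧ (Real.sqrt 2)⁻¹ ≤ 1 ∧
    (Real.sqrt 2)⁻¹ * (Real.sqrt 2)⁻¹ = 1 / 2 := by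
  have h0 : (0:ℝ) < Real.sqrt 2 := by positivity
  have h1 : Real.sqrt 2 * Real.sqrt 2 = 2 := Real.mul_self_sqrt (by norm_num)
  have h2 : (Real.sqrt 2)⁻¹ * (Real.sqrt 2)⁻¹ = 1 / 2 := by
    rw [← mul_inv, h1]; norm_num
  have h3 : (0:ℝ) < (Real.sqrt 2)⁻¹ := by positivity
  refine ⟨?_, ?_, h2⟩
  · by_contra h
    push Not at h
    nlinarith
  · by_contra h
    push Not at h
    nlinarith

section
variable {n v N : ℕ} (r : Fin n) (u : Fin (v + 1) → Fin N → Fin n) (σ : Fin n → Bool)
  (g g' : Fin (v + 1) → Fin N)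

theorem Pf_nonneg (x : Fin v × Fin v) : 0 ≤ Pf u σ g g' x := by
  unfold Pf
  have h1 := iv_nonneg (σ (u x.1.succ (g x.1.succ)))
  have h2 := iv_nonneg (σ (u x.2.succ (g x.2.succ)))
  have h3 := iv_nonneg (σ (u x.1.succ (g' x.1.succ)))
  have h4 := iv_nonneg (σ (u x.2.succ (g' x.2.succ)))
  split_ifs <;> positivity

theorem Pf_le (x : Fin v × Fin v) : Pf u σ g g' x ≤ 4 := by
  unfold Pf
  rcases iv_zero_or (σ (u x.1.succ (g x.1.succ))) with h1 | h1 <;>
  rcases iv_zero_or (σ (u x.2.succ (g x.2.succ))) with h2 | h2 <;>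
  rcases iv_zero_or (σ (u x.1.succ (g' x.1.succ))) with h3 | h3 <;>
  rcases iv_zero_or (σ (u x.2.succ (g' x.2.succ))) with h4 | h4 <;>
  rw [h1, h2, h3, h4] <;> split_ifs <;> norm_num

theorem Lf_nonneg (j : Fin v) : 0 ≤ Lf u σ g g' j := by
  unfold Lf
  have h1 := iv_nonneg (σ (u 0 (g 0)))
  have h2 := iv_nonneg (σ (u 0 (g' 0)))
  have h3 := iv_nonneg (σ (u j.succ (g j.succ)))
  have h4 := iv_nonneg (σ (u j.succ (g' j.succ)))
  split_ifs <;> positivity

theorem Rf_nonneg : 0 ≤ Rf r u σ g g' := by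
  unfold Rf
  have h1 := iv_nonneg (σ (u 0 (g 0)))
  have h2 := iv_nonneg (σ (u 0 (g' 0)))
  have h3 := iv_nonneg (σ r)
  split_ifs <;> positivity

theorem lf_nonneg (j : Fin v) : 0 ≤ lf u σ g g' j := by
  unfold lf
  have h1 := iv_nonneg (σ (u 0 (g 0)))
  have h3 := iv_nonneg (σ (u j.succ (g j.succ)))
  have h4 := iv_nonneg (σ (u j.succ (g' j.succ)))
  have h5 := iv_le_one (σ (u j.succ (g j.succ)))
  have h6 : 0 ≤ th v := by unfold th; positivity
  have h7 : 0 ≤ 1 - iv (σ (u j.succ (g j.succ))) := by linarith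
  split_ifs <;> positivity

end

theorem p_BD : S_BD := by
  intro n v N r u σ g g'
  by_cases h0 : g 0 = g' 0
  · rw [if_pos h0]
    have hR : Rf r u σ g g' = 1 := by unfold Rf; rw [if_pos h0]
    rw [hR, one_mul]
    set s : ℝ := (Real.sqrt 2)⁻¹ with hs
    obtain ⟨hs1, hs2, hs3⟩ := s_bounds
    rw [← hs] at hs1 hs2 hs3
    set ψ : Fin v → ℝ := fun j =>
      if g j.succ = g' j.succ then
        (iv (σ (u j.succ (g j.succ))) + (1 - iv (σ (u j.succ (g j.succ)))) * s) else 1 with hψ
    by_cases hz : ∃ j, Lf u σ g g' j = 0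
    · obtain ⟨j, hj⟩ := hz
      rw [Finset.prod_eq_zero (Finset.mem_univ j) hj, zero_mul]
      have : 0 ≤ ∏ j, lf u σ g g' j := Finset.prod_nonneg fun j _ => lf_nonneg u σ g g' j
      positivity
    · push Not at hz
      have hlf : ∀ j, lf u σ g g' j = Lf u σ g g' j * ψ j ^ (v - 1) := by
        intro j
        by_cases hj : g j.succ = g' j.succ
        · simp only [lf, Lf, hψ, if_pos hj, if_pos (And.intro h0 hj), one_mul]
          rcases iv_zero_or (σ (u j.succ (g j.succ))) with h1 | h1 <;> rw [h1]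
          · simp [th, hs]
          · simp
        · have hn : ¬ (g 0 = g' 0 ∧ g j.succ = g' j.succ) := fun h => hj h.2
          simp only [lf, Lf, hψ, if_neg hj, if_neg hn, one_pow, mul_one]
          rw [← h0]
          rcases iv_zero_or (σ (u 0 (g 0))) with h1 | h1 <;> rw [h1] <;> ring
      have hP : ∀ x ∈ prs v, Pf u σ g g' x ≤ 4 * (ψ x.1 * ψ x.2) := by
        intro x _
        have key : ∀ j : Fin v, g j.succ ≠ g' j.succ →
            iv (σ (u j.succ (g j.succ))) = 1 ∧ iv (σ (u j.succ (g' j.succ))) = 1 := by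
          intro j hj
          have h1 := hz j
          unfold Lf at h1
          rw [if_neg (fun h => hj h.2)] at h1
          have h2 := left_ne_zero_of_mul h1
          have h3 := right_ne_zero_of_mul h1
          exact ⟨(iv_zero_or _).resolve_left (right_ne_zero_of_mul h2),
            (iv_zero_or _).resolve_left (right_ne_zero_of_mul h3)⟩
        unfold Pf
        simp only [hψ]
        by_cases h1 : g x.1.succ = g' x.1.succ
        · by_cases h2 : g x.2.succ = g' x.2.succ
          · rw [if_pos ⟨h1, h2⟩, if_pos h1, if_pos h2]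
            rcases iv_zero_or (σ (u x.1.succ (g x.1.succ))) with h3 | h3 <;>
            rcases iv_zero_or (σ (u x.2.succ (g x.2.succ))) with h4 | h4 <;>
            rw [h3, h4] <;> nlinarith
          · rw [if_neg (fun h => h2 h.2), if_pos h1, if_neg h2]
            obtain ⟨k1, k2⟩ := key _ h2
            rw [k1, k2, ← h1]
            rcases iv_zero_or (σ (u x.1.succ (g x.1.succ))) with h3 | h3 <;>
            rw [h3] <;> nlinarith
        · obtain ⟨k1, k2⟩ := key _ h1
          by_cases h2 : g x.2.succ = g' x.2.succ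
          · rw [if_neg (fun h => h1 h.1), if_neg h1, if_pos h2]
            rw [k1, k2, ← h2]
            rcases iv_zero_or (σ (u x.2.succ (g x.2.succ))) with h3 | h3 <;>
            rw [h3] <;> nlinarith
          · obtain ⟨k3, k4⟩ := key _ h2
            rw [if_neg (fun h => h1 h.1), if_neg h1, if_neg h2, k1, k2, k3, k4]
            norm_num
      have hL : 0 ≤ ∏ j : Fin v, Lf u σ g g' j :=
        Finset.prod_nonneg fun j _ => Lf_nonneg u σ g g' j
      calc (∏ j : Fin v, Lf u σ g g' j) * ∏ x ∈ prs v, Pf u σ g g' x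
          ≤ (∏ j : Fin v, Lf u σ g g' j) * ∏ x ∈ prs v, (4 * (ψ x.1 * ψ x.2)) := by
            refine mul_le_mul_of_nonneg_left ?_ hL
            exact Finset.prod_le_prod (fun x _ => Pf_nonneg u σ g g' x) hP
        _ = 4 ^ (v.choose 2) * ∏ j : Fin v, lf u σ g g' j := by
            rw [Finset.prod_mul_distrib, Finset.prod_const, card_prs, prod_pairs,
              Finset.prod_congr rfl fun j _ => hlf j, Finset.prod_mul_distrib]
            ring
  · rw [if_neg h0]
    have hR : Rf r u σ g g' = iv (σ r) * iv (σ (u 0 (g 0))) * iv (σ (u 0 (g' 0))) := by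
      unfold Rf; rw [if_neg h0]
    have hL : ∏ j : Fin v, Lf u σ g g' j ≤
        ∏ j : Fin v, (iv (σ (u j.succ (g j.succ))) * iv (σ (u j.succ (g' j.succ)))) := by
      refine Finset.prod_le_prod (fun j _ => Lf_nonneg u σ g g' j) fun j _ => ?_
      unfold Lf
      rw [if_neg (fun h => h0 h.1)]
      rcases iv_zero_or (σ (u 0 (g 0))) with h1 | h1 <;>
      rcases iv_zero_or (σ (u 0 (g' 0))) with h2 | h2 <;>
      rcases iv_zero_or (σ (u j.succ (g j.succ))) with h3 | h3 <;>
      rcases iv_zero_or (σ (u j.succ (g' j.succ))) with h4 | h4 <;>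
      rw [h1, h2, h3, h4] <;> norm_num
    have hP : ∏ x ∈ prs v, Pf u σ g g' x ≤ 4 ^ (v.choose 2) := by
      have h1 : ∏ x ∈ prs v, Pf u σ g g' x ≤ ∏ x ∈ prs v, (4:ℝ) :=
        Finset.prod_le_prod (fun x _ => Pf_nonneg u σ g g' x) fun x _ => Pf_le u σ g g' x
      rwa [Finset.prod_const, card_prs] at h1
    have hL0 : 0 ≤ ∏ j : Fin v, Lf u σ g g' j :=
      Finset.prod_nonneg fun j _ => Lf_nonneg u σ g g' j
    have hP0 : 0 ≤ ∏ x ∈ prs v, Pf u σ g g' x :=
      Finset.prod_nonneg fun x _ => Pf_nonneg u σ g g' x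
    have hR0 := Rf_nonneg r u σ g g'
    calc Rf r u σ g g' * (∏ j : Fin v, Lf u σ g g' j) * (∏ x ∈ prs v, Pf u σ g g' x)
        ≤ Rf r u σ g g' *
          (∏ j : Fin v, (iv (σ (u j.succ (g j.succ))) * iv (σ (u j.succ (g' j.succ))))) *
          4 ^ (v.choose 2) := by
          refine mul_le_mul (mul_le_mul_of_nonneg_left hL hR0) hP hP0 ?_
          exact mul_nonneg hR0 (le_trans hL0 hL)
      _ = _ := by
          rw [hR]; ring

end Pool.Agent.W4helper48.LD
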