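import Pool.Agent.W2helper17.LD.IND

/-!
# Piece EVP of project LD: expectation of the bound over the planted set
-/

set_option autoImplicit false

open Pool.Agent.N602.PC Pool.Agent.W2helper57.LD

namespace Pool.Agent.W4helper48.LD

theorem wb_sum (p : ℝ) {n : ℕ} (i : Fin n) : (fun _ : Fin n => wb p) i true +
    (fun _ : Fin n => wb p) i false = 1 := by
  simp [wb]

/-- expectation of a function of one bit -/
theorem EV_one {n : ℕ} (p : ℝ) (i : Fin n) (f : Bool → ℝ) :
    EV p (fun σ : Fin n → Bool => f (σ i)) = p * f true + (1 - p) * f false := by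
  unfold EV Ew
  have h1 : ∀ σ : Fin n → Bool, (∏ j, wb p (σ j)) * f (σ i) =
      ∏ j, (wb p (σ j) * (if j = i then f (σ j) else 1)) := by
    intro σ
    rw [Finset.prod_mul_distrib]
    congr 1
    rw [Finset.prod_ite_eq' Finset.univ i (fun j => f (σ j))]
    simp
  rw [Finset.sum_congr rfl fun σ _ => h1 σ]
  rw [← Fintype.prod_sum (fun (j : Fin n) (b : Bool) => wb p b * (if j = i then f b else 1))]
  have h2 : ∀ j : Fin n, ∑ b : Bool, wb p b * (if j = i then f b else 1) =
      if j = i then p * f true + (1 - p) * f false else 1 := by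
    intro j
    rw [Fintype.sum_bool]
    split_ifs <;> simp [wb]
  rw [Finset.prod_congr rfl fun j _ => h2 j, Finset.prod_ite_eq']
  simp

/-- two different bits -/
theorem EV_two {n : ℕ} (p : ℝ) (i j : Fin n) (hij : i ≠ j) :
    EV p (fun σ : Fin n → Bool => iv (σ i) * iv (σ j)) = p ^ 2 := by
  have h := Pool.Agent.W2helper17.LD.main (ι := Fin n) (κ := Bool) (fun _ => wb p) (wb_sum p)
    Finset.univ (fun b => {if b = true then i else j})
    (by
      intro x _ y _ hxy
      rw [Finset.disjoint_singleton]
      cases x <;> cases y <;> simp_all [Ne.symm])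
    (fun b σ => iv (σ (if b = true then i else j)))
    (by
      intro x _ ω ω' hω
      have := hω _ (Finset.mem_singleton_self _)
      show iv _ = iv _
      rw [this])
  simp only [Fintype.prod_bool] at h
  unfold EV
  simp only [if_true, Bool.false_eq_true, if_false] at h
  rw [h]
  have h1 := EV_one p i iv
  have h2 := EV_one p j iv
  unfold EV at h1 h2
  rw [h1, h2]
  simp [iv]
  ring

theorem p_EVP : S_EVP := by
  intro n v N p r u hG s g g'
  have hup : ∀ (σ : Fin n → Bool) (i : Fin (v + 1)) (m : Fin N),
      Function.update σ r s (u i m) = σ (u i m) := by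
    intro σ i m
    rw [Function.update_of_ne (hG.ne i m)]
  have hur : ∀ σ : Fin n → Bool, Function.update σ r s r = s := fun σ => by simp
  simp only [lf, hup, hur]
  -- the general independence statement
  have gen : ∀ G : Fin (v + 1) → (Fin n → Bool) → ℝ,
      (∀ x, ∀ ω ω' : Fin n → Bool, ω (u x (g x)) = ω' (u x (g x)) →
        ω (u x (g' x)) = ω' (u x (g' x)) → G x ω = G x ω') →
      EV p (fun σ => G 0 σ * ∏ j : Fin v, G j.succ σ) = EV p (G 0) * ∏ j : Fin v, EV p (G j.succ) := by
    intro G hGd
    have h := Pool.Agent.W2helper17.LD.main (ι := Fin n) (κ := Fin (v + 1)) (fun _ => wb p)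
      (wb_sum p) Finset.univ (fun x => {u x (g x), u x (g' x)})
      (by
        intro x _ y _ hxy
        rw [Finset.disjoint_left]
        intro a ha hb
        simp only [Finset.mem_insert, Finset.mem_singleton] at ha hb
        rcases ha with rfl | rfl <;> rcases hb with hb | hb <;>
        exact hxy (hG.inj _ _ _ _ hb).1)
      G
      (by
        intro x _ ω ω' hω
        exact hGd x ω ω' (hω _ (by simp)) (hω _ (by simp)))
    simp only [Fin.prod_univ_succ] at h
    exact h
  by_cases h0 : g 0 = g' 0
  · simp only [if_pos h0]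
    have hl : EV p (fun σ : Fin n → Bool => ∏ j : Fin v,
          (if g j.succ = g' j.succ then
            iv (σ (u j.succ (g j.succ))) + (1 - iv (σ (u j.succ (g j.succ)))) * th v
          else iv (σ (u 0 (g 0))) * (iv (σ (u j.succ (g j.succ))) * iv (σ (u j.succ (g' j.succ)))))) =
        EV p (fun σ : Fin n → Bool => iv (σ (u 0 (g 0))) * ∏ j : Fin v,
          (if g j.succ = g' j.succ then
            iv (σ (u j.succ (g j.succ))) + (1 - iv (σ (u j.succ (g j.succ)))) * th v
          else (iv (σ (u j.succ (g j.succ))) * iv (σ (u j.succ (g' j.succ)))))) +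
        EV p (fun σ : Fin n → Bool => (1 - iv (σ (u 0 (g 0)))) * ∏ j : Fin v,
          (if g j.succ = g' j.succ then
            iv (σ (u j.succ (g j.succ))) + (1 - iv (σ (u j.succ (g j.succ)))) * th v
          else 0)) := by
      unfold EV Ew
      rw [← Finset.sum_add_distrib]
      refine Finset.sum_congr rfl fun σ _ => ?_
      rw [← mul_add]
      congr 1
      have hc : iv (σ (u 0 (g 0))) = 0 ∨ iv (σ (u 0 (g 0))) = 1 := by
        unfold iv; cases σ (u 0 (g 0)) <;> simp
      beta_reduce
      rcases hc with hc | hc <;> rw [hc] <;> simp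
    rw [hl]
    have e1 := gen (fun x σ => if h : x = 0 then iv (σ (u 0 (g 0))) else
        if g x = g' x then iv (σ (u x (g x))) + (1 - iv (σ (u x (g x)))) * th v
        else (iv (σ (u x (g x))) * iv (σ (u x (g' x)))))
      (by
        intro x ω ω' h1 h2
        by_cases hx : x = 0
        · subst hx
          simp [h1]
        · simp [hx, h1, h2])
    have e2 := gen (fun x σ => if h : x = 0 then 1 - iv (σ (u 0 (g 0))) else
        if g x = g' x then iv (σ (u x (g x))) + (1 - iv (σ (u x (g x)))) * th v
        else 0)
      (by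
        intro x ω ω' h1 h2
        by_cases hx : x = 0
        · subst hx
          simp [h1]
        · simp [hx, h1])
    simp only [dite_true, Fin.succ_ne_zero, dite_false] at e1 e2
    rw [e1, e2]
    have a1 : EV p (fun σ : Fin n → Bool => iv (σ (u 0 (g 0)))) = p := by
      have := EV_one p (u 0 (g 0)) iv
      rw [this]; simp [iv]
    have a2 : EV p (fun σ : Fin n → Bool => 1 - iv (σ (u 0 (g 0)))) = 1 - p := by
      have := EV_one p (u 0 (g 0)) (fun b => 1 - iv b)
      rw [this]; simp [iv]
    rw [a1, a2]
    have a3 : ∀ j : Fin v, EV p (fun σ : Fin n → Bool =>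
        if g j.succ = g' j.succ then
            iv (σ (u j.succ (g j.succ))) + (1 - iv (σ (u j.succ (g j.succ)))) * th v
          else (iv (σ (u j.succ (g j.succ))) * iv (σ (u j.succ (g' j.succ))))) =
        if g j.succ = g' j.succ then p + (1 - p) * th v else p ^ 2 := by
      intro j
      by_cases hj : g j.succ = g' j.succ
      · simp only [if_pos hj]
        have := EV_one p (u j.succ (g j.succ)) (fun b => iv b + (1 - iv b) * th v)
        rw [this]; simp [iv]
      · simp only [if_neg hj]
        exact EV_two p _ _ fun h => hj (hG.inj _ _ _ _ h).2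
    have a4 : ∀ j : Fin v, EV p (fun σ : Fin n → Bool =>
        if g j.succ = g' j.succ then
            iv (σ (u j.succ (g j.succ))) + (1 - iv (σ (u j.succ (g j.succ)))) * th v
          else 0) =
        if g j.succ = g' j.succ then p + (1 - p) * th v else 0 := by
      intro j
      by_cases hj : g j.succ = g' j.succ
      · simp only [if_pos hj]
        have := EV_one p (u j.succ (g j.succ)) (fun b => iv b + (1 - iv b) * th v)
        rw [this]; simp [iv]
      · simp only [if_neg hj]
        have := EV_one p (u j.succ (g j.succ)) (fun _ => 0)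
        rw [this]; simp
    rw [Finset.prod_congr rfl fun j _ => a3 j, Finset.prod_congr rfl fun j _ => a4 j]
  · simp only [if_neg h0]
    have e1 := gen (fun x σ => if h : x = 0 then iv s * (iv (σ (u 0 (g 0))) * iv (σ (u 0 (g' 0)))) else
        (iv (σ (u x (g x))) * iv (σ (u x (g' x)))))
      (by
        intro x ω ω' h1 h2
        by_cases hx : x = 0
        · subst hx
          simp [h1, h2]
        · simp [hx, h1, h2])
    simp only [dite_true, Fin.succ_ne_zero, dite_false] at e1
    rw [e1]
    have a1 : EV p (fun σ : Fin n → Bool => iv s * (iv (σ (u 0 (g 0))) * iv (σ (u 0 (g' 0))))) =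
        iv s * p ^ 2 := by
      have := EV_two p (u 0 (g 0)) (u 0 (g' 0)) fun h => h0 (hG.inj _ _ _ _ h).2
      rw [← this]
      unfold EV Ew
      rw [Finset.mul_sum]
      refine Finset.sum_congr rfl fun σ _ => ?_
      ring
    rw [a1]
    congr 1
    refine Finset.prod_congr rfl fun j _ => ?_
    by_cases hj : g j.succ = g' j.succ
    · rw [if_pos hj]
      have := EV_one p (u j.succ (g j.succ)) (fun b => iv b * iv b)
      rw [← hj, this]; simp [iv]
    · rw [if_neg hj]
      exact EV_two p _ _ fun h => hj (hG.inj _ _ _ _ h).2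

end Pool.Agent.W4helper48.LD
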